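import Mathlib
import Pool.Agent.Helper437.ModelDef

/-! The first-order theory of the class of all lattices of ℓ-ideals of ℓ-groups is undecidable. -/

namespace Pool.Agent.Results.MP_411a76_lc.LIdealTheory

open FirstOrder FirstOrder.Language
open Pool.Agent.Helper437.ArithDef Pool.Agent.Helper437.ModelDef

universe u

set_option linter.unusedVariables false

/-! ### The language of lattices -/

/-- The two function symbols of the language of lattices. -/
inductive LSym : ℕ → Type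
  | inf : LSym 2
  | sup : LSym 2

/-- The first-order language of lattices. -/
def Lat : Language := ⟨LSym, fun _ => Empty⟩

/-- Every lattice is a structure for the language of lattices. -/
instance latStructure (F : Type u) [Lattice F] : Lat.Structure F where
  funMap := fun {n} (f : LSym n) => match n, f with
    | _, .inf => fun v => v 0 ⊓ v 1
    | _, .sup => fun v => v 0 ⊔ v 1
  RelMap := fun {_} r => Empty.elim r

/-! ### Gödel numbering -/

/-- Gödel number of a term. -/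
def termCode {k : ℕ} : Lat.Term (Empty ⊕ Fin k) → ℕ
  | .var (.inr i) => Nat.pair 0 i
  | .func LSym.inf ts => Nat.pair 1 (Nat.pair (termCode (ts 0)) (termCode (ts 1)))
  | .func LSym.sup ts => Nat.pair 2 (Nat.pair (termCode (ts 0)) (termCode (ts 1)))

/-- Gödel number of a formula (of a sentence when `k = 0`). -/
def code : {k : ℕ} → Lat.BoundedFormula Empty k → ℕ
  | _, .falsum => Nat.pair 0 0
  | _, .equal t₁ t₂ => Nat.pair 1 (Nat.pair (termCode t₁) (termCode t₂))
  | _, .imp φ ψ => Nat.pair 2 (Nat.pair (code φ) (code ψ))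
  | _, .all φ => Nat.pair 3 (code φ)

/-! ### ℓ-ideals -/

/-- A subgroup of an ℓ-group is an ℓ-ideal if it is normal, a sublattice, and convex. -/
structure IsLIdeal {G : Type u} [Group G] [Lattice G] (N : Subgroup G) : Prop where
  normal : N.Normal
  sup_mem : ∀ a ∈ N, ∀ b ∈ N, a ⊔ b ∈ N
  inf_mem : ∀ a ∈ N, ∀ b ∈ N, a ⊓ b ∈ N
  convex : ∀ a ∈ N, ∀ b ∈ N, ∀ c, a ≤ c → c ≤ b → c ∈ N

/-- The set of ℓ-ideals of an ℓ-group. -/
def LIdeal (G : Type u) [Group G] [Lattice G] : Type u := {N : Subgroup G // IsLIdeal N}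

/-- ℓ-ideals are ordered by inclusion. -/
instance (G : Type u) [Group G] [Lattice G] : PartialOrder (LIdeal G) :=
  inferInstanceAs (PartialOrder {N : Subgroup G // IsLIdeal N})

/-- The infimum of a set of ℓ-ideals is their intersection. -/
instance (G : Type u) [Group G] [Lattice G] : InfSet (LIdeal G) :=
  ⟨fun S => ⟨sInf (Subtype.val '' S), {
    normal := by
      refine ⟨fun n hn g => ?_⟩
      rw [Subgroup.mem_sInf] at hn ⊢
      rintro _ ⟨N, hN, rfl⟩
      exact N.2.normal.conj_mem n (hn _ ⟨N, hN, rfl⟩) g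
    sup_mem := by
      intro a ha b hb
      rw [Subgroup.mem_sInf] at ha hb ⊢
      rintro _ ⟨N, hN, rfl⟩
      exact N.2.sup_mem a (ha _ ⟨N, hN, rfl⟩) b (hb _ ⟨N, hN, rfl⟩)
    inf_mem := by
      intro a ha b hb
      rw [Subgroup.mem_sInf] at ha hb ⊢
      rintro _ ⟨N, hN, rfl⟩
      exact N.2.inf_mem a (ha _ ⟨N, hN, rfl⟩) b (hb _ ⟨N, hN, rfl⟩)
    convex := by
      intro a ha b hb c hac hcb
      rw [Subgroup.mem_sInf] at ha hb ⊢
      rintro _ ⟨N, hN, rfl⟩
      exact N.2.convex a (ha _ ⟨N, hN, rfl⟩) b (hb _ ⟨N, hN, rfl⟩) c hac hcb }⟩⟩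

/-- The ℓ-ideals form a complete lattice under inclusion. -/
instance (G : Type u) [Group G] [Lattice G] : CompleteLattice (LIdeal G) :=
  completeLatticeOfInf (LIdeal G) fun S => by
    constructor
    · intro N hN
      exact sInf_le (α := Subgroup G) ⟨N, hN, rfl⟩
    · intro K hK
      refine le_sInf (α := Subgroup G) ?_
      rintro _ ⟨N, hN, rfl⟩
      exact hK hN

/-! ### Second-order arithmetic inside a complete lattice -/

section semantic
variable {F : Type u} [CompleteLattice F]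

/-- completely join prime elements, in first-order form -/
def Sj (x : F) : Prop := ∃ m, ∀ y, x ≤ y ↔ ¬ y ≤ m

/-- maximal completely join prime elements below `A` -/
def Num (A x : F) : Prop := Sj x ∧ x ≤ A ∧ ∀ y, Sj y → x ≤ y → y ≤ A → y = x

/-- the binary relation coded by `X` -/
def Rl (X c r : F) : Prop := ∃ q, Sj q ∧ q ≤ c ∧ q ≤ r ∧ q ≤ X

/-- the binary relation on numbers coded by `X` -/
def Rho (B D X a b : F) : Prop := ∃ r, Num B r ∧ Rl X a r ∧ Rl D b r

/-- successor -/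
def Sc (p : Fin 5 → F) (a b : F) : Prop :=
  Num (p 0) a ∧ Num (p 0) b ∧ Rho (p 1) (p 2) (p 3) a b

/-- the axioms: parameters are `A = p 0`, `B = p 1`, `D = p 2`, `S = p 3`, `Z = p 4` -/
def Chi (p : Fin 5 → F) : Prop :=
  (∀ c r, Num (p 0) c → Num (p 1) r → ∃ q, Sj q ∧ q ≤ c ∧ q ≤ r) ∧
  (∀ c c' q, Num (p 0) c → Num (p 0) c' → Sj q → q ≤ c → q ≤ c' → c = c') ∧
  (∀ c c' q, Num (p 1) c → Num (p 1) c' → Sj q → q ≤ c → q ≤ c' → c = c') ∧
  (∀ b, Num (p 0) b → ∃ r, Num (p 1) r ∧ Rl (p 2) b r) ∧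
  (∀ b b' r, Num (p 0) b → Num (p 0) b' → Num (p 1) r → Rl (p 2) b r → Rl (p 2) b' r → b = b') ∧
  (Num (p 0) (p 4)) ∧
  (∀ x, ¬ Sc p x (p 4)) ∧
  (∀ x, Num (p 0) x → ∃ y, Sc p x y) ∧
  (∀ x y y', Sc p x y → Sc p x y' → y = y') ∧
  (∀ x x' y, Sc p x y → Sc p x' y → x = x') ∧
  (∀ X, p 4 ≤ X → (∀ x y, Sc p x y → x ≤ X → y ≤ X) → ∀ x, Num (p 0) x → x ≤ X)

/-- addition -/
def Pl (p : Fin 5 → F) (x y z : F) : Prop :=
  ∀ X, Rho (p 1) (p 2) X (p 4) x →
    (∀ u v u' v', Sc p u u' → Sc p v v' → Rho (p 1) (p 2) X u v → Rho (p 1) (p 2) X u' v') →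
    Rho (p 1) (p 2) X y z

/-- multiplication -/
def Tm (p : Fin 5 → F) (x y z : F) : Prop :=
  ∀ X, Rho (p 1) (p 2) X (p 4) (p 4) →
    (∀ u v u' w, Sc p u u' → Num (p 0) v → Num (p 0) w → Pl p v x w →
      Rho (p 1) (p 2) X u v → Rho (p 1) (p 2) X u' w) →
    Rho (p 1) (p 2) X y z

theorem Sj.ne_bot {x : F} (h : Sj x) : x ≠ ⊥ := by
  rintro rfl
  obtain ⟨m, hm⟩ := h
  exact (hm m).1 bot_le le_rfl

theorem Sj.le_sSup {x : F} (h : Sj x) {T : Set F} (hx : x ≤ sSup T) : ∃ y ∈ T, x ≤ y := by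
  obtain ⟨m, hm⟩ := h
  by_contra hcon
  push Not at hcon
  have : sSup T ≤ m := sSup_le fun y hy => by
    by_contra hym
    exact hcon y hy ((hm y).2 hym)
  exact (hm _).1 hx this

variable {p : Fin 5 → F}

/-- comprehension for sets of numbers -/
theorem compr1 (Q : F → Prop) : ∃ X, ∀ x, Num (p 0) x → (x ≤ X ↔ Q x) := by
  refine ⟨sSup {x | Num (p 0) x ∧ Q x}, fun x hx => ⟨fun h => ?_, fun h => le_sSup ⟨hx, h⟩⟩⟩
  obtain ⟨y, ⟨hy, hQ⟩, hxy⟩ := hx.1.le_sSup h
  rwa [hx.2.2 y hy.1 hxy hy.2.1] at hQ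

theorem Chi.exists_nu (h : Chi p) : ∃ nu : ℕ → F, nu 0 = p 4 ∧ (∀ n, Sc p (nu n) (nu (n + 1))) ∧
    (∀ a b, nu a = nu b → a = b) ∧ (∀ x, Num (p 0) x ↔ ∃ n, x = nu n) ∧
    (∀ a b, Sc p (nu a) (nu b) ↔ b = a + 1) := by
  obtain ⟨-, -, -, -, -, hz, hz', h1, h2, h3, hind⟩ := h
  choose! s hs using h1
  let nu : ℕ → F := fun n => Nat.rec (p 4) (fun _ x => s x) n
  have hnum : ∀ n, Num (p 0) (nu n) := by
    intro n
    induction n with
    | zero => exact hz
    | succ n ih => exact (hs _ ih).2.1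
  have hsc : ∀ n, Sc p (nu n) (nu (n + 1)) := fun n => hs _ (hnum n)
  have hinj : ∀ a b, nu a = nu b → a = b := by
    intro a
    induction a with
    | zero =>
      intro b hb
      cases b with
      | zero => rfl
      | succ b =>
        have := hsc b
        rw [← hb] at this
        exact absurd this (hz' _)
    | succ a ih =>
      intro b hb
      cases b with
      | zero =>
        have := hsc a
        rw [hb] at this
        exact absurd this (hz' _)
      | succ b =>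
        have h4 := hsc b
        rw [← hb] at h4
        rw [ih b (h3 _ _ _ (hsc a) h4)]
  refine ⟨nu, rfl, hsc, hinj, ?_, ?_⟩
  · intro x
    constructor
    · intro hx
      obtain ⟨X, hX⟩ := compr1 (p := p) (fun x => ∃ n, x = nu n)
      refine (hX x hx).1 (hind X ((hX _ hz).2 ⟨0, rfl⟩) ?_ x hx)
      intro x y hxy hxX
      obtain ⟨n, rfl⟩ := (hX x hxy.1).1 hxX
      refine (hX y hxy.2.1).2 ⟨n + 1, h2 _ _ _ hxy (hsc n)⟩
    · rintro ⟨n, rfl⟩
      exact hnum n
  · intro a b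
    constructor
    · intro hab
      exact hinj _ _ (h2 _ _ _ hab (hsc a))
    · rintro rfl
      exact hsc a

/-- comprehension for binary relations on numbers -/
theorem Chi.compr2 (h : Chi p) (Q : F → F → Prop) : ∃ X, ∀ a b, Num (p 0) a → Num (p 0) b →
    (Rho (p 1) (p 2) X a b ↔ Q a b) := by
  obtain ⟨hpair, hA, hB, hD1, hD2, -⟩ := h
  refine ⟨sSup {q | Sj q ∧ ∃ a b r, Num (p 0) a ∧ Num (p 0) b ∧ Num (p 1) r ∧ Q a b ∧
    Rl (p 2) b r ∧ q ≤ a ∧ q ≤ r}, fun a b ha hb => ⟨?_, ?_⟩⟩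
  · rintro ⟨r, hr, ⟨q, hq, hqa, hqr, hqX⟩, hbr⟩
    obtain ⟨q', ⟨hq', a', b', r', ha', hb', hr', hQ, hb'r', hqa', hqr'⟩, hqq'⟩ := hq.le_sSup hqX
    have e1 : a = a' := hA a a' q ha ha' hq hqa (hqq'.trans hqa')
    have e2 : r = r' := hB r r' q hr hr' hq hqr (hqq'.trans hqr')
    subst e1 e2
    have e3 : b = b' := hD2 b b' r hb hb' hr hbr hb'r'
    subst e3
    exact hQ
  · intro hQ
    obtain ⟨r, hr, hbr⟩ := hD1 b hb
    obtain ⟨q, hq, hqa, hqr⟩ := hpair a r ha hr
    exact ⟨r, hr, ⟨q, hq, hqa, hqr, le_sSup ⟨hq, a, b, r, ha, hb, hr, hQ, hbr, hqa, hqr⟩⟩, hbr⟩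

theorem Chi.plus (h : Chi p) {nu : ℕ → F} (h0 : nu 0 = p 4) (hs : ∀ n, Sc p (nu n) (nu (n + 1)))
    (hinj : ∀ a b, nu a = nu b → a = b) (hnum : ∀ x, Num (p 0) x ↔ ∃ n, x = nu n)
    (hsc : ∀ a b, Sc p (nu a) (nu b) ↔ b = a + 1)
    (a b c : ℕ) : Pl p (nu a) (nu b) (nu c) ↔ a + b = c := by
  have hn : ∀ n, Num (p 0) (nu n) := fun n => (hnum _).2 ⟨n, rfl⟩
  constructor
  · intro hP
    obtain ⟨X, hX⟩ := h.compr2 (fun x y => ∃ n, x = nu n ∧ y = nu (a + n))
    have h1 := hP X ?_ ?_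
    · obtain ⟨n, e1, e2⟩ := (hX _ _ (hn b) (hn c)).1 h1
      have := hinj _ _ e1
      have := hinj _ _ e2
      omega
    · rw [← h0]
      exact (hX _ _ (hn 0) (hn a)).2 ⟨0, rfl, by simp⟩
    · intro u v u' v' hu hv huv
      obtain ⟨n, rfl, rfl⟩ := (hX _ _ hu.1 hv.1).1 huv
      obtain ⟨n', rfl⟩ := (hnum _).1 hu.2.1
      obtain ⟨m', rfl⟩ := (hnum _).1 hv.2.1
      have e1 := (hsc _ _).1 hu
      have e2 := (hsc _ _).1 hv
      refine (hX _ _ (hn _) (hn _)).2 ⟨n', rfl, ?_⟩
      rw [e1, e2]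
      rfl
  · rintro rfl X h1 h2
    induction b with
    | zero => rw [h0]; exact h1
    | succ b ih => exact h2 _ _ _ _ (hs b) (hs (a + b)) ih

theorem Chi.times (h : Chi p) {nu : ℕ → F} (h0 : nu 0 = p 4) (hs : ∀ n, Sc p (nu n) (nu (n + 1)))
    (hinj : ∀ a b, nu a = nu b → a = b) (hnum : ∀ x, Num (p 0) x ↔ ∃ n, x = nu n)
    (hsc : ∀ a b, Sc p (nu a) (nu b) ↔ b = a + 1)
    (a b c : ℕ) : Tm p (nu a) (nu b) (nu c) ↔ a * b = c := by
  have hn : ∀ n, Num (p 0) (nu n) := fun n => (hnum _).2 ⟨n, rfl⟩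
  constructor
  · intro hP
    obtain ⟨X, hX⟩ := h.compr2 (fun x y => ∃ n, x = nu n ∧ y = nu (a * n))
    have h1 := hP X ?_ ?_
    · obtain ⟨n, e1, e2⟩ := (hX _ _ (hn b) (hn c)).1 h1
      have e3 := hinj _ _ e1
      have e4 := hinj _ _ e2
      rw [e3, e4]
    · rw [← h0]
      exact (hX _ _ (hn 0) (hn 0)).2 ⟨0, rfl, by simp⟩
    · intro u v u' w hu hv hw hvw huv
      obtain ⟨n, rfl, rfl⟩ := (hX _ _ hu.1 hv).1 huv
      obtain ⟨n', rfl⟩ := (hnum _).1 hu.2.1
      obtain ⟨m', rfl⟩ := (hnum _).1 hw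
      have e1 := (hsc _ _).1 hu
      have e2 := (h.plus h0 hs hinj hnum hsc _ _ _).1 hvw
      refine (hX _ _ (hn _) (hn _)).2 ⟨n', rfl, ?_⟩
      rw [e1, ← e2]
      congr 1
  · rintro rfl X h1 h2
    induction b with
    | zero => rw [h0]; simpa [h0] using h1
    | succ b ih =>
      exact h2 _ _ _ _ (hs b) (hn (a * b)) (hn (a * (b + 1)))
        ((h.plus h0 hs hinj hnum hsc _ _ _).2 (by ring)) ih

end semantic

/-! ### Uniform definability -/

/-- complete lattices with five parameters -/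
structure CL : Type (u + 1) where
  F : Type u
  [lat : CompleteLattice F]
  p : Fin 5 → F

attribute [instance] CL.lat

/-- parameters -/
abbrev par (i : CL.{u}) : Fin 5 → i.F := i.p

/-- substitute a parameter for variable 0 -/
theorem subPar {R : ∀ i : CL.{u}, i.F → (ℕ → i.F) → Prop} (k : Fin 5)
    (h : DM Lat par (fun i v => R i (v 0) (fun n => v (n + 1)))) :
    DM Lat par (fun i v => R i (i.p k) v) :=
  DM.iff (fun i v => by simp) (DM.ex (S := fun (i : CL.{u}) a v => a = i.p k ∧ R i a v)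
    (DM.and (DM.var_eq_par 0 k) h))

/-- meet of terms -/
abbrev tI {α : Type} (s t : Lat.Term α) : Lat.Term α := Term.func (LSym.inf : Lat.Functions 2) ![s, t]

theorem dm_le (a b : ℕ) : DM Lat par (fun (_ : CL.{u}) v => v a ≤ v b) := by
  refine DM.iff (R := fun (_ : CL.{u}) v => v a ⊓ v b = v a) (fun _ v => inf_eq_left) ?_
  exact DM.term (tI (Term.var (Sum.inr a)) (Term.var (Sum.inr b))) (Term.var (Sum.inr a))

theorem dm_sj (a : ℕ) : DM Lat par (fun (i : CL.{u}) v => Sj (v a)) :=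
  DM.ex (S := fun (_ : CL.{u}) m v => ∀ y, v a ≤ y ↔ ¬ y ≤ m)
    (DM.all (S := fun (i : CL.{u}) y v => v (a + 1) ≤ y ↔ ¬ y ≤ v 0)
      (DM.iff' (dm_le (a + 2) 0) (DM.not (dm_le 0 1))))

theorem dm_num (a b : ℕ) : DM Lat par (fun (i : CL.{u}) v => Num (v a) (v b)) :=
  DM.and (dm_sj b) (DM.and (dm_le b a) (DM.all (S := fun (i : CL.{u}) y v => Sj y → v b ≤ y → y ≤ v a → y = v b)
    (DM.imp (dm_sj 0) (DM.imp (dm_le (b + 1) 0) (DM.imp (dm_le 0 (a + 1)) (DM.var_eq 0 (b + 1)))))))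

theorem dm_rl (a b c : ℕ) : DM Lat par (fun (i : CL.{u}) v => Rl (v a) (v b) (v c)) :=
  DM.ex (S := fun (i : CL.{u}) q v => Sj q ∧ q ≤ v b ∧ q ≤ v c ∧ q ≤ v a)
    (DM.and (dm_sj 0) (DM.and (dm_le 0 (b + 1)) (DM.and (dm_le 0 (c + 1)) (dm_le 0 (a + 1)))))

theorem dm_nump (k : Fin 5) (b : ℕ) : DM Lat par (fun (i : CL.{u}) v => Num (i.p k) (v b)) :=
  subPar (R := fun (i : CL.{u}) a v => Num a (v b)) k (dm_num 0 (b + 1))

theorem dm_rlp (k : Fin 5) (b c : ℕ) : DM Lat par (fun (i : CL.{u}) v => Rl (i.p k) (v b) (v c)) :=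
  subPar (R := fun (i : CL.{u}) a v => Rl a (v b) (v c)) k (dm_rl 0 (b + 1) (c + 1))

theorem dm_rho (X a b : ℕ) :
    DM Lat par (fun (i : CL.{u}) v => Rho (i.p 1) (i.p 2) (v X) (v a) (v b)) :=
  DM.ex (S := fun (i : CL.{u}) r v => Num (i.p 1) r ∧ Rl (v X) (v a) r ∧ Rl (i.p 2) (v b) r)
    (DM.and (dm_nump 1 0) (DM.and (dm_rl (X + 1) (a + 1) 0) (dm_rlp 2 (b + 1) 0)))

theorem dm_sc (a b : ℕ) : DM Lat par (fun (i : CL.{u}) v => Sc i.p (v a) (v b)) :=
  DM.and (dm_nump 0 a) (DM.and (dm_nump 0 b)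
    (subPar (R := fun (i : CL.{u}) X v => Rho (i.p 1) (i.p 2) X (v a) (v b)) 3 (dm_rho 0 (a + 1) (b + 1))))

theorem dm_pl (a b c : ℕ) : DM Lat par (fun (i : CL.{u}) v => Pl i.p (v a) (v b) (v c)) := by
  refine DM.all (S := fun (i : CL.{u}) X v => Rho (i.p 1) (i.p 2) X (i.p 4) (v a) →
    (∀ x y x' y', Sc i.p x x' → Sc i.p y y' → Rho (i.p 1) (i.p 2) X x y →
      Rho (i.p 1) (i.p 2) X x' y') → Rho (i.p 1) (i.p 2) X (v b) (v c)) ?_
  refine DM.imp (subPar (R := fun (i : CL.{u}) z v => Rho (i.p 1) (i.p 2) (v 0) z (v (a + 1))) 4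
    (dm_rho 1 0 (a + 2))) (DM.imp ?_ (dm_rho 0 (b + 1) (c + 1)))
  refine DM.all (DM.all (DM.all (DM.all ?_)))
  exact DM.imp (dm_sc 3 1) (DM.imp (dm_sc 2 0) (DM.imp (dm_rho 4 3 2) (dm_rho 4 1 0)))

theorem dm_tm (a b c : ℕ) : DM Lat par (fun (i : CL.{u}) v => Tm i.p (v a) (v b) (v c)) := by
  refine DM.all (S := fun (i : CL.{u}) X v => Rho (i.p 1) (i.p 2) X (i.p 4) (i.p 4) →
    (∀ x y x' w, Sc i.p x x' → Num (i.p 0) y → Num (i.p 0) w → Pl i.p y (v a) w →
      Rho (i.p 1) (i.p 2) X x y → Rho (i.p 1) (i.p 2) X x' w) →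
    Rho (i.p 1) (i.p 2) X (v b) (v c)) ?_
  refine DM.imp (subPar (R := fun (i : CL.{u}) z v => Rho (i.p 1) (i.p 2) (v 0) z z) 4
    (dm_rho 1 0 0)) (DM.imp ?_ (dm_rho 0 (b + 1) (c + 1)))
  refine DM.all (DM.all (DM.all (DM.all ?_)))
  exact DM.imp (dm_sc 3 1) (DM.imp (dm_nump 0 2) (DM.imp (dm_nump 0 0)
    (DM.imp (dm_pl 2 (a + 5) 0) (DM.imp (dm_rho 4 3 2) (dm_rho 4 1 0)))))

theorem dm_chi : DM Lat par (fun (i : CL.{u}) _ => Chi i.p) := by
  refine DM.and ?_ (DM.and ?_ (DM.and ?_ (DM.and ?_ (DM.and ?_ (DM.and ?_ (DM.and ?_ (DM.and ?_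
    (DM.and ?_ (DM.and ?_ ?_)))))))))
  · refine DM.all (DM.all ?_)
    exact DM.imp (dm_nump 0 1) (DM.imp (dm_nump 1 0) (DM.ex (DM.and (dm_sj 0)
      (DM.and (dm_le 0 2) (dm_le 0 1)))))
  · refine DM.all (DM.all (DM.all ?_))
    exact DM.imp (dm_nump 0 2) (DM.imp (dm_nump 0 1) (DM.imp (dm_sj 0) (DM.imp (dm_le 0 2)
      (DM.imp (dm_le 0 1) (DM.var_eq 2 1)))))
  · refine DM.all (DM.all (DM.all ?_))
    exact DM.imp (dm_nump 1 2) (DM.imp (dm_nump 1 1) (DM.imp (dm_sj 0) (DM.imp (dm_le 0 2)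
      (DM.imp (dm_le 0 1) (DM.var_eq 2 1)))))
  · refine DM.all ?_
    exact DM.imp (dm_nump 0 0) (DM.ex (DM.and (dm_nump 1 0) (dm_rlp 2 1 0)))
  · refine DM.all (DM.all (DM.all ?_))
    exact DM.imp (dm_nump 0 2) (DM.imp (dm_nump 0 1) (DM.imp (dm_nump 1 0)
      (DM.imp (dm_rlp 2 2 0) (DM.imp (dm_rlp 2 1 0) (DM.var_eq 2 1)))))
  · exact subPar (R := fun (i : CL.{u}) z v => Num (i.p 0) z) 4 (dm_nump 0 0)
  · refine DM.all (DM.not ?_)
    exact subPar (R := fun (i : CL.{u}) z v => Sc i.p (v 0) z) 4 (dm_sc 1 0)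
  · refine DM.all ?_
    exact DM.imp (dm_nump 0 0) (DM.ex (dm_sc 1 0))
  · refine DM.all (DM.all (DM.all ?_))
    exact DM.imp (dm_sc 2 1) (DM.imp (dm_sc 2 0) (DM.var_eq 1 0))
  · refine DM.all (DM.all (DM.all ?_))
    exact DM.imp (dm_sc 2 0) (DM.imp (dm_sc 1 0) (DM.var_eq 2 1))
  · refine DM.all ?_
    refine DM.imp (subPar (R := fun (i : CL.{u}) z v => z ≤ v 0) 4 (dm_le 0 1)) (DM.imp ?_ ?_)
    · exact DM.all (DM.all (DM.imp (dm_sc 1 0) (DM.imp (dm_le 1 2) (dm_le 0 2))))
    · exact DM.all (DM.imp (dm_nump 0 0) (dm_le 0 1))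

/-- the subfamily satisfying the axioms -/
abbrev CLx : Type (u + 1) := {i : CL.{u} // Chi i.p}

/-- parameters of the subfamily -/
abbrev parx (i : CLx.{u}) : Fin 5 → i.1.F := i.1.p

/-- the numbers of the subfamily -/
noncomputable def nu (i : CLx.{u}) : ℕ → i.1.F := i.2.exists_nu.choose

theorem dm_restrict {R : ∀ i : CL.{u}, (ℕ → i.F) → Prop} (h : DM Lat par R) :
    DM Lat (M := fun i : CLx.{u} => i.1.F) parx (fun i => R i.1) := by
  obtain ⟨φ, hφ⟩ := h
  exact ⟨φ, fun i v => hφ i.1 v⟩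

theorem interp : Interp (L := Lat) (M := fun i : CLx.{u} => i.1.F) parx nu where
  rng := by
    refine DM.iff (R := fun (i : CLx.{u}) v => Num (i.1.p 0) (v 0)) ?_ (dm_restrict (dm_nump 0 0))
    intro i v
    exact i.2.exists_nu.choose_spec.2.2.2.1 (v 0)
  add := by
    refine ⟨_, dm_restrict (dm_pl 0 1 2), fun i w => ?_⟩
    obtain ⟨h0, h1, h2, h3, h4⟩ := i.2.exists_nu.choose_spec
    exact i.2.plus h0 h1 h2 h3 h4 _ _ _
  mul := by
    refine ⟨_, dm_restrict (dm_tm 0 1 2), fun i w => ?_⟩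
    obtain ⟨h0, h1, h2, h3, h4⟩ := i.2.exists_nu.choose_spec
    exact i.2.times h0 h1 h2 h3 h4 _ _ _

/-! ### Injectivity of the Gödel numbering -/

theorem termCode_injective {k : ℕ} (s t : Lat.Term (Empty ⊕ Fin k)) (h : termCode s = termCode t) :
    s = t := by
  induction s generalizing t with
  | var x =>
    rcases x with x | i
    · exact x.elim
    · cases t with
      | var y =>
        rcases y with y | j
        · exact y.elim
        · simp only [termCode, Nat.pair_eq_pair] at h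
          rw [Fin.ext h.2]
      | func g us =>
        cases g <;> simp [termCode, Nat.pair_eq_pair] at h
  | func f ts ih =>
    cases t with
    | var y =>
      rcases y with y | j
      · exact y.elim
      · cases f <;> simp [termCode, Nat.pair_eq_pair] at h
    | func g us =>
      cases f <;> cases g <;> simp only [termCode, Nat.pair_eq_pair, false_and, true_and,
        OfNat.one_ne_ofNat, OfNat.ofNat_ne_one] at h
      · congr 1
        funext i
        fin_cases i
        · exact ih 0 _ h.1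
        · exact ih 1 _ h.2
      · congr 1
        funext i
        fin_cases i
        · exact ih 0 _ h.1
        · exact ih 1 _ h.2

theorem code_injective {k : ℕ} (φ ψ : Lat.BoundedFormula Empty k) (h : code φ = code ψ) :
    φ = ψ := by
  induction φ with
  | falsum =>
    cases ψ with
    | falsum => rfl
    | equal a b => simp [code, Nat.pair_eq_pair] at h
    | rel r a => exact Empty.elim r
    | imp a b => simp [code, Nat.pair_eq_pair] at h
    | all a => simp [code, Nat.pair_eq_pair] at h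
  | equal a b =>
    cases ψ with
    | falsum => simp [code, Nat.pair_eq_pair] at h
    | equal c d =>
      simp only [code, Nat.pair_eq_pair, true_and] at h
      rw [termCode_injective _ _ h.1, termCode_injective _ _ h.2]
    | rel r a => exact Empty.elim r
    | imp a b => simp [code, Nat.pair_eq_pair] at h
    | all a => simp [code, Nat.pair_eq_pair] at h
  | rel r a => exact Empty.elim r
  | imp a b iha ihb =>
    cases ψ with
    | falsum => simp [code, Nat.pair_eq_pair] at h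
    | equal c d => simp [code, Nat.pair_eq_pair] at h
    | rel r a => exact Empty.elim r
    | imp c d =>
      simp only [code, Nat.pair_eq_pair, true_and] at h
      rw [iha _ h.1, ihb _ h.2]
    | all a => simp [code, Nat.pair_eq_pair] at h
  | all a iha =>
    cases ψ with
    | falsum => simp [code, Nat.pair_eq_pair] at h
    | equal c d => simp [code, Nat.pair_eq_pair] at h
    | rel r a => exact Empty.elim r
    | imp c d => simp [code, Nat.pair_eq_pair] at h
    | all c =>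
      simp only [code, Nat.pair_eq_pair, true_and] at h
      rw [iha _ h]

/-! ### Placing a formula at a given quantifier depth -/

/-- embedding of variables -/
def emb {α : Type} {k : ℕ} (g : α → Fin k) (m : ℕ) : α ⊕ Fin m → Empty ⊕ Fin (k + m)
  | .inl s => .inr (Fin.castAdd m (g s))
  | .inr i => .inr (Fin.natAdd k i)

/-- a formula with free variables replaced by outer bound variables -/
def toBF {α : Type} {k : ℕ} (g : α → Fin k) :
    {m : ℕ} → Lat.BoundedFormula α m → Lat.BoundedFormula Empty (k + m)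
  | _, .falsum => .falsum
  | m, .equal t₁ t₂ => .equal (t₁.relabel (emb g m)) (t₂.relabel (emb g m))
  | _, .imp φ ψ => .imp (toBF g φ) (toBF g ψ)
  | _, .all φ => .all (toBF g φ)

theorem realize_toBF {α : Type} {k : ℕ} (g : α → Fin k) {N : Type u} [Lat.Structure N] {m : ℕ}
    (φ : Lat.BoundedFormula α m) (v : Empty → N) (xs : Fin (k + m) → N) :
    (toBF g φ).Realize v xs ↔
      φ.Realize (fun s => xs (Fin.castAdd m (g s))) (fun i => xs (Fin.natAdd k i)) := by
  have ht : ∀ (m : ℕ) (t : Lat.Term (α ⊕ Fin m)) (xs : Fin (k + m) → N),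
      (t.relabel (emb g m)).realize (Sum.elim v xs) =
      t.realize (Sum.elim (fun s => xs (Fin.castAdd m (g s))) (fun i => xs (Fin.natAdd k i))) := by
    intro m t xs
    rw [Term.realize_relabel]
    congr 1
    funext s
    rcases s with s | i <;> rfl
  induction φ with
  | falsum => exact Iff.rfl
  | equal t₁ t₂ =>
    show _ = _ ↔ _ = _
    rw [ht, ht]
  | rel r a => exact Empty.elim r
  | imp φ ψ ih1 ih2 =>
    exact imp_congr (ih1 xs) (ih2 xs)
  | @all n φ ih =>
    show (∀ a, _) ↔ (∀ a, _)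
    refine forall_congr' fun a => ?_
    refine (ih (Fin.snoc xs a : Fin (k + n + 1) → N)).trans ?_
    have e1 : (fun s => (Fin.snoc xs a : Fin (k + n + 1) → N) (Fin.castAdd (n + 1) (g s))) =
        (fun s => xs (Fin.castAdd n (g s))) := by
      funext s
      exact Fin.snoc_castSucc (α := fun _ => N) a xs (Fin.castAdd n (g s))
    have e2 : (fun i => (Fin.snoc xs a : Fin (k + n + 1) → N) (Fin.natAdd k i)) =
        (Fin.snoc (fun i => xs (Fin.natAdd k i)) a : Fin (n + 1) → N) := by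
      funext i
      refine Fin.lastCases ?_ (fun i => ?_) i
      · rw [Fin.snoc_last]
        exact Fin.snoc_last (α := fun _ => N) a xs
      · rw [Fin.snoc_castSucc]
        exact Fin.snoc_castSucc (α := fun _ => N) a xs (Fin.natAdd k i)
    rw [e1, e2]

theorem primrec_termCode {α : Type} (K : ℕ → ℕ) (hK : Primrec K) (g : ∀ j, α → Fin (K j))
    (hg : ∀ s, Primrec (fun j => (g j s : ℕ))) {m : ℕ} (t : Lat.Term (α ⊕ Fin m)) :
    Primrec (fun j => termCode (t.relabel (emb (g j) m))) := by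
  induction t with
  | var x =>
    rcases x with s | i
    · exact Primrec₂.natPair.comp (Primrec.const 0) (hg s)
    · exact Primrec₂.natPair.comp (Primrec.const 0) (Primrec.nat_add.comp hK (Primrec.const (i : ℕ)))
  | func f ts ih =>
    cases f with
    | inf => exact Primrec₂.natPair.comp (Primrec.const 1) (Primrec₂.natPair.comp (ih 0) (ih 1))
    | sup => exact Primrec₂.natPair.comp (Primrec.const 2) (Primrec₂.natPair.comp (ih 0) (ih 1))

theorem primrec_toBF {α : Type} (K : ℕ → ℕ) (hK : Primrec K) (g : ∀ j, α → Fin (K j))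
    (hg : ∀ s, Primrec (fun j => (g j s : ℕ))) {m : ℕ} (φ : Lat.BoundedFormula α m) :
    Primrec (fun j => code (toBF (g j) φ)) := by
  induction φ with
  | falsum => exact Primrec.const _
  | equal t₁ t₂ =>
    exact Primrec₂.natPair.comp (Primrec.const 1) (Primrec₂.natPair.comp
      (primrec_termCode K hK g hg t₁) (primrec_termCode K hK g hg t₂))
  | rel r a => exact Empty.elim r
  | imp φ ψ ih1 ih2 =>
    exact Primrec₂.natPair.comp (Primrec.const 2) (Primrec₂.natPair.comp ih1 ih2)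
  | all φ ih => exact Primrec₂.natPair.comp (Primrec.const 3) ih

/-! ### The sentences of the reduction -/

/-- variables of the halting formula at depth `5 + k` -/
def g0 (k : ℕ) : Fin 5 ⊕ ℕ → Fin (5 + k)
  | .inl i => Fin.castAdd k i
  | .inr _ => ⟨4 + k, by omega⟩

/-- variables of the successor formula at depth `5 + (k + 1)` -/
def g1 (k : ℕ) : Fin 5 ⊕ ℕ → Fin (5 + (k + 1))
  | .inl i => Fin.castAdd (k + 1) i
  | .inr 0 => ⟨4 + k, by omega⟩
  | .inr (_ + 1) => ⟨4 + (k + 1), by omega⟩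

/-- variables of the axioms at depth `5` -/
def gx : Fin 5 ⊕ ℕ → Fin 5
  | .inl i => i
  | .inr _ => 0

/-- the `j`-th successor of the current number is not a halting program -/
def Psi (φs φh : Lat.Formula (Fin 5 ⊕ ℕ)) : ℕ → (k : ℕ) → Lat.BoundedFormula Empty (5 + k)
  | 0, k => .imp (toBF (g0 k) φh) .falsum
  | j + 1, k => .all (.imp (toBF (g1 k) φs) (Psi φs φh j (k + 1)))

/-- the sentence of the reduction -/
def sig (φx φs φh : Lat.Formula (Fin 5 ⊕ ℕ)) (n : ℕ) : Lat.Sentence :=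
  (BoundedFormula.imp (toBF gx φx : Lat.BoundedFormula Empty 5) (Psi φs φh n 0)).alls

theorem primrec_psi (φs φh : Lat.Formula (Fin 5 ⊕ ℕ)) :
    Primrec (fun n => code (Psi φs φh n 0)) := by
  have h5 : Primrec (fun k : ℕ => 5 + k) := Primrec.nat_add.comp (Primrec.const 5) Primrec.id
  have h6 : Primrec (fun k : ℕ => 5 + (k + 1)) :=
    Primrec.nat_add.comp (Primrec.const 5) Primrec.succ
  have hh : Primrec (fun k => code (toBF (g0 k) φh)) := by
    refine primrec_toBF (fun k => 5 + k) h5 g0 ?_ φh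
    rintro (i | n)
    · exact Primrec.const (i : ℕ)
    · exact Primrec.nat_add.comp (Primrec.const 4) Primrec.id
  have hs : Primrec (fun k => code (toBF (g1 k) φs)) := by
    refine primrec_toBF (fun k => 5 + (k + 1)) h6 g1 ?_ φs
    rintro (i | n)
    · exact Primrec.const (i : ℕ)
    · cases n with
      | zero => exact Primrec.nat_add.comp (Primrec.const 4) Primrec.id
      | succ n => exact Primrec.nat_add.comp (Primrec.const 4) Primrec.succ
  let c0 : ℕ → ℕ := fun k => Nat.pair 2 (Nat.pair (code (toBF (g0 k) φh)) (Nat.pair 0 0))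
  let st : ℕ → ℕ × ℕ → ℕ := fun n q =>
    Nat.pair 3 (Nat.pair 2 (Nat.pair (code (toBF (g1 (n - (q.1 + 1))) φs)) q.2))
  have hc0 : Primrec c0 := Primrec₂.natPair.comp (Primrec.const 2)
    (Primrec₂.natPair.comp hh (Primrec.const _))
  have hst : Primrec₂ st := by
    refine Primrec₂.natPair.comp (Primrec.const 3) (Primrec₂.natPair.comp (Primrec.const 2)
      (Primrec₂.natPair.comp (hs.comp (Primrec.nat_sub.comp Primrec.fst
        (Primrec.succ.comp (Primrec.fst.comp Primrec.snd)))) (Primrec.snd.comp Primrec.snd)))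
  have key : ∀ n j, j ≤ n → (Nat.rec (c0 n) (fun j ih => st n (j, ih)) j : ℕ) =
      code (Psi φs φh j (n - j)) := by
    intro n j
    induction j with
    | zero => intro _; rfl
    | succ j ih =>
      intro hj
      have h1 := ih (by omega)
      show st n (j, Nat.rec (c0 n) (fun j ih => st n (j, ih)) j) = _
      rw [h1]
      have h2 : n - j = n - (j + 1) + 1 := by omega
      rw [h2]
      rfl
  have h := Primrec.nat_rec' (f := fun n : ℕ => n) (g := c0) (h := st) Primrec.id hc0 hst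
  refine h.of_eq fun n => ?_
  have := key n n le_rfl
  rw [this, Nat.sub_self]

theorem primrec_sig (φx φs φh : Lat.Formula (Fin 5 ⊕ ℕ)) :
    Primrec (fun n => code (sig φx φs φh n)) := by
  have h3 : ∀ {f : ℕ → ℕ}, Primrec f → Primrec (fun n => Nat.pair 3 (f n)) := fun hf =>
    Primrec₂.natPair.comp (Primrec.const 3) hf
  exact h3 (h3 (h3 (h3 (h3 (Primrec₂.natPair.comp (Primrec.const 2)
    (Primrec₂.natPair.comp (Primrec.const (code (toBF gx φx))) (primrec_psi φs φh)))))))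

theorem realize_psi (φs φh : Lat.Formula (Fin 5 ⊕ ℕ))
    (hs : ∀ (i : CL.{u}) (v : ℕ → i.F), φs.Realize (Sum.elim (par i) v) ↔ Sc i.p (v 0) (v 1))
    (hh : ∀ (i : CLx.{u}) (w : ℕ → ℕ),
      φh.Realize (Sum.elim (parx i) (fun n => nu i (w n))) ↔ Halt (w 0))
    (i : CLx.{u}) (v : Empty → i.1.F) (j : ℕ) : ∀ (k : ℕ) (xs : Fin (5 + k) → i.1.F) (a : ℕ),
    (∀ s : Fin 5, xs (Fin.castAdd k s) = i.1.p s) → xs ⟨4 + k, by omega⟩ = nu i a →
    ((Psi φs φh j k).Realize v xs ↔ ¬ Halt (a + j)) := by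
  induction j with
  | zero =>
    intro k xs a hp ha
    show (_ → False) ↔ _
    refine not_congr ?_
    refine (realize_toBF (g0 k) φh v xs).trans ?_
    have e : (fun s => xs (Fin.castAdd 0 (g0 k s))) =
        Sum.elim (parx i) (fun _ => nu i a) := by
      funext s
      rcases s with s | s
      · exact hp s
      · exact ha
    rw [e]
    refine Iff.trans ?_ (hh i (fun _ => a))
    unfold Formula.Realize
    exact iff_of_eq (congrArg (BoundedFormula.Realize φh _) (Subsingleton.elim _ _))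
  | succ j ih =>
    intro k xs a hp ha
    obtain ⟨h0, h1, h2, h3, h4⟩ := i.2.exists_nu.choose_spec
    have hstep : ∀ y : i.1.F, (toBF (g1 k) φs).Realize v (Fin.snoc xs y : Fin (5 + k + 1) → i.1.F) ↔
        Sc i.1.p (nu i a) y := by
      intro y
      refine (realize_toBF (g1 k) φs v (Fin.snoc xs y : Fin (5 + k + 1) → i.1.F)).trans ?_
      have e : (fun s => (Fin.snoc xs y : Fin (5 + k + 1) → i.1.F) (Fin.castAdd 0 (g1 k s))) =
          Sum.elim (par i.1) (cns (nu i a) (fun _ => y)) := by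
        funext s
        rcases s with s | s
        · refine Eq.trans ?_ (hp s)
          exact Fin.snoc_castSucc (α := fun _ => i.1.F) y xs (Fin.castAdd k s)
        · cases s with
          | zero =>
            refine Eq.trans ?_ ha
            exact Fin.snoc_castSucc (α := fun _ => i.1.F) y xs ⟨4 + k, by omega⟩
          | succ s =>
            have e5 : (Fin.castAdd 0 (g1 k (Sum.inr (s + 1))) : Fin (5 + (k + 1))) =
                Fin.last (5 + k) := by
              apply Fin.ext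
              show 4 + (k + 1) = 5 + k
              omega
            show (Fin.snoc xs y : Fin (5 + k + 1) → i.1.F)
              (Fin.castAdd 0 (g1 k (Sum.inr (s + 1))) : Fin (5 + (k + 1))) = y
            rw [e5]
            exact Fin.snoc_last (α := fun _ => i.1.F) y xs
      rw [e]
      refine Iff.trans ?_ (hs i.1 (cns (nu i a) (fun _ => y)))
      unfold Formula.Realize
      exact iff_of_eq (congrArg (BoundedFormula.Realize φs _) (Subsingleton.elim _ _))
    have hrec : ∀ b : ℕ, (Psi φs φh j (k + 1)).Realize v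
        (Fin.snoc xs (nu i b) : Fin (5 + k + 1) → i.1.F) ↔ ¬ Halt (b + j) := by
      intro b
      refine ih (k + 1) (Fin.snoc xs (nu i b) : Fin (5 + k + 1) → i.1.F) b ?_ ?_
      · intro s
        refine Eq.trans ?_ (hp s)
        exact Fin.snoc_castSucc (α := fun _ => i.1.F) (nu i b) xs (Fin.castAdd k s)
      · have e5 : (⟨4 + (k + 1), by omega⟩ : Fin (5 + (k + 1))) = Fin.last (5 + k) := by
          apply Fin.ext
          show 4 + (k + 1) = 5 + k
          omega
        rw [e5]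
        exact Fin.snoc_last (α := fun _ => i.1.F) (nu i b) xs
    show (∀ y, _ → _) ↔ _
    constructor
    · intro h
      have h5 := h (nu i (a + 1)) ((hstep _).2 (h1 a))
      have h6 := (hrec (a + 1)).1 h5
      rwa [show a + 1 + j = a + (j + 1) by ring] at h6
    · intro h y hy
      have h5 := (hstep y).1 hy
      obtain ⟨b, rfl⟩ := (h3 y).1 h5.2.1
      have h6 := (h4 a b).1 h5
      refine (hrec b).2 ?_
      rw [h6, show a + 1 + j = a + (j + 1) by ring]
      exact h

/-- There is a computable sequence of sentences such that, in every complete lattice having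
parameters satisfying the axioms, the `n`-th one holds iff the `n`-th program does not halt; and
which hold in every complete lattice when the `n`-th program does not halt. -/
theorem exists_reduction : ∃ σ : ℕ → Lat.Sentence, Primrec (fun n => code (σ n)) ∧
    (∀ n (F : Type u) [CompleteLattice F], ¬ Halt n → F ⊨ σ n) ∧
    (∀ n (F : Type u) [CompleteLattice F], (∃ p : Fin 5 → F, Chi p) → Halt n → ¬ F ⊨ σ n) := by
  obtain ⟨φx, hx⟩ := dm_chi.{u}
  obtain ⟨φs, hs⟩ := dm_sc.{u} 0 1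
  obtain ⟨φh, hh⟩ := (DN.closed interp.{u}).halt
  have key : ∀ n (F : Type u) [CompleteLattice F], F ⊨ sig φx φs φh n ↔
      ∀ p : Fin 5 → F, Chi p → ¬ Halt n := by
    intro n F _
    unfold sig Sentence.Realize
    rw [BoundedFormula.realize_alls]
    refine forall_congr' fun p => ?_
    show (_ → _) ↔ _
    have h1 : (toBF gx φx : Lat.BoundedFormula Empty 5).Realize default p ↔ Chi p := by
      refine (realize_toBF gx φx default p).trans ?_
      refine Iff.trans ?_ (hx ⟨F, p⟩ (fun _ => p 0))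
      have e : (fun s => p (Fin.castAdd 0 (gx s))) = Sum.elim (par ⟨F, p⟩) (fun _ => p 0) := by
        funext s
        rcases s with s | s <;> rfl
      rw [e]
      unfold Formula.Realize
      exact iff_of_eq (congrArg (BoundedFormula.Realize φx _) (Subsingleton.elim _ _))
    constructor
    · intro h hC
      have h2 := h (h1.2 hC)
      have h3 := (realize_psi φs φh hs hh ⟨⟨F, p⟩, hC⟩ default n 0 p 0 (fun s => rfl) ?_).1 h2
      · rwa [zero_add] at h3
      · exact (Chi.exists_nu hC).choose_spec.1.symm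
    · intro h hC
      have hC' := h1.1 hC
      refine (realize_psi φs φh hs hh ⟨⟨F, p⟩, hC'⟩ default n 0 p 0 (fun s => rfl) ?_).2 ?_
      · exact (Chi.exists_nu hC').choose_spec.1.symm
      · rw [zero_add]
        exact h hC'
  refine ⟨sig φx φs φh, primrec_sig φx φs φh, ?_, ?_⟩
  · intro n F _ hn
    exact (key n F).2 fun p _ => hn
  · rintro n F _ ⟨p, hp⟩ hn h
    exact (key n F).1 h p hp hn


/-! ### Order automorphisms of `ℚ` -/

open Filter

/-- pointwise maximum of two order automorphisms -/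
noncomputable def supIso (f g : ℚ ≃o ℚ) : ℚ ≃o ℚ :=
  StrictMono.orderIsoOfSurjective (fun x => max (f x) (g x))
    (fun a b h => max_lt_max (f.strictMono h) (g.strictMono h))
    (fun y => by
      rcases le_total (f.symm y) (g.symm y) with h | h
      · refine ⟨f.symm y, ?_⟩
        have : g (f.symm y) ≤ y := by
          have := g.monotone h
          rwa [g.apply_symm_apply] at this
        simp [this]
      · refine ⟨g.symm y, ?_⟩
        have : f (g.symm y) ≤ y := by
          have := f.monotone h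
          rwa [f.apply_symm_apply] at this
        simp [this])

/-- pointwise minimum of two order automorphisms -/
noncomputable def infIso (f g : ℚ ≃o ℚ) : ℚ ≃o ℚ :=
  StrictMono.orderIsoOfSurjective (fun x => min (f x) (g x))
    (fun a b h => min_lt_min (f.strictMono h) (g.strictMono h))
    (fun y => by
      rcases le_total (f.symm y) (g.symm y) with h | h
      · refine ⟨g.symm y, ?_⟩
        have : y ≤ f (g.symm y) := by
          have := f.monotone h
          rwa [f.apply_symm_apply] at this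
        simp [this]
      · refine ⟨f.symm y, ?_⟩
        have : y ≤ g (f.symm y) := by
          have := g.monotone h
          rwa [g.apply_symm_apply] at this
        simp [this])

@[simp] theorem supIso_apply (f g : ℚ ≃o ℚ) (x : ℚ) : supIso f g x = max (f x) (g x) := rfl
@[simp] theorem infIso_apply (f g : ℚ ≃o ℚ) (x : ℚ) : infIso f g x = min (f x) (g x) := rfl

/-- the two ends of `ℚ` -/
def atEnd (s : Bool) : Filter ℚ := cond s atTop atBot

instance (s : Bool) : (atEnd s).NeBot := by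
  cases s
  · exact (inferInstance : (atBot : Filter ℚ).NeBot)
  · exact (inferInstance : (atTop : Filter ℚ).NeBot)

theorem tendsto_add (s : Bool) (c : ℚ) : Tendsto (fun x => x + c) (atEnd s) (atEnd s) := by
  cases s
  · exact tendsto_atBot_add_const_right _ c tendsto_id
  · exact tendsto_atTop_add_const_right _ c tendsto_id

/-- filters: `none` is the whole line, `some s` is an end -/
def fil : Option Bool → Filter ℚ
  | none => ⊤
  | some s => atEnd s

theorem tendsto_iso (o : Option Bool) (f : ℚ ≃o ℚ) : Tendsto f (fil o) (fil o) := by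
  rcases o with _ | s
  · exact tendsto_top
  · cases s
    · exact f.tendsto_atBot
    · exact f.tendsto_atTop

/-- translation germ -/
def Germ (s : Bool) (f : ℚ ≃o ℚ) (c : ℚ) : Prop := ∀ᶠ x in atEnd s, f x = x + c

theorem Germ.mul {s : Bool} {f g : ℚ ≃o ℚ} {a b : ℚ} (hf : Germ s f a) (hg : Germ s g b) :
    Germ s (f * g) (a + b) := by
  have h1 := (tendsto_add s b).eventually hf
  filter_upwards [h1, hg] with x h2 h3
  rw [RelIso.mul_apply, h3, h2]
  ring

theorem Germ.inv {s : Bool} {f : ℚ ≃o ℚ} {a : ℚ} (hf : Germ s f a) : Germ s f⁻¹ (-a) := by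
  have h1 := (tendsto_add s (-a)).eventually hf
  filter_upwards [h1] with x h2
  have h3 : f (x + -a) = x := by rw [h2]; ring
  have h4 : f⁻¹ (f (x + -a)) = x + -a := RelIso.inv_apply_self f _
  rwa [h3] at h4

theorem Germ.one (s : Bool) : Germ s 1 0 := Eventually.of_forall fun x => by simp

theorem Germ.sup {s : Bool} {f g : ℚ ≃o ℚ} {a b : ℚ} (hf : Germ s f a) (hg : Germ s g b) :
    Germ s (supIso f g) (max a b) := by
  filter_upwards [hf, hg] with x h2 h3
  rw [supIso_apply, h2, h3, max_add_add_left]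

theorem Germ.inf {s : Bool} {f g : ℚ ≃o ℚ} {a b : ℚ} (hf : Germ s f a) (hg : Germ s g b) :
    Germ s (infIso f g) (min a b) := by
  filter_upwards [hf, hg] with x h2 h3
  rw [infIso_apply, h2, h3, min_add_add_left]

theorem Germ.unique {s : Bool} {f : ℚ ≃o ℚ} {a b : ℚ} (hf : Germ s f a) (hg : Germ s f b) :
    a = b := by
  obtain ⟨x, h1, h2⟩ := (hf.and hg).exists
  rw [h1] at h2
  exact add_left_cancel h2

/-- affine automorphisms -/
def aff (s t : ℚ) (hs : 0 < s) : ℚ ≃o ℚ := (OrderIso.mulLeft₀ s hs).trans (OrderIso.addRight t)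

@[simp] theorem aff_apply (s t : ℚ) (hs : 0 < s) (x : ℚ) : aff s t hs x = s * x + t := rfl

/-- a boundedly supported automorphism stretching `[x, y]` over `[a, b]` -/
theorem exists_stretch (x y a b : ℚ) (hxy : x < y) : ∃ h : ℚ ≃o ℚ, h x ≤ a ∧ b ≤ h y ∧
    ∀ s, ∀ᶠ t in atEnd s, h t = t := by
  have hd : 0 < y - x := by linarith
  obtain ⟨s, hs1, hs2⟩ : ∃ s : ℚ, 1 ≤ s ∧ b ≤ x + s * (y - x) := by
    refine ⟨max 1 ((b - x) / (y - x)), le_max_left _ _, ?_⟩
    have h1 : (b - x) / (y - x) * (y - x) = b - x := div_mul_cancel₀ _ hd.ne'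
    have h2 := mul_le_mul_of_nonneg_right (le_max_right 1 ((b - x) / (y - x))) hd.le
    linarith
  obtain ⟨r, hr1, hr2⟩ : ∃ r : ℚ, 1 ≤ r ∧ y - r * (y - x) ≤ a := by
    refine ⟨max 1 ((y - a) / (y - x)), le_max_left _ _, ?_⟩
    have h1 : (y - a) / (y - x) * (y - x) = y - a := div_mul_cancel₀ _ hd.ne'
    have h2 := mul_le_mul_of_nonneg_right (le_max_right 1 ((y - a) / (y - x))) hd.le
    linarith
  have hs0 : 0 < s := by linarith
  have hr0 : 0 < r := by linarith
  have hh : (0 : ℚ) < 1 / 2 := by norm_num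
  let B : ℚ := 2 * b - y
  let A : ℚ := 2 * a - x
  let U := supIso 1 (infIso (aff s (x - s * x) hs0) (aff (1 / 2) (B / 2) hh))
  let V := infIso 1 (supIso (aff r (y - r * y) hr0) (aff (1 / 2) (A / 2) hh))
  have hU : ∀ t, U t = max t (min (s * t + (x - s * x)) (1 / 2 * t + B / 2)) := fun t => rfl
  have hV : ∀ t, V t = min t (max (r * t + (y - r * y)) (1 / 2 * t + A / 2)) := fun t => rfl
  have hUx : ∀ t, t ≤ x → U t = t := by
    intro t ht
    rw [hU, max_eq_left]
    refine (min_le_left _ _).trans ?_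
    nlinarith
  have hUB : ∀ t, B ≤ t → U t = t := by
    intro t ht
    rw [hU, max_eq_left]
    refine (min_le_right _ _).trans ?_
    linarith
  have hVy : ∀ t, y ≤ t → V t = t := by
    intro t ht
    rw [hV, min_eq_left]
    refine le_trans ?_ (le_max_left _ _)
    nlinarith
  have hVA : ∀ t, t ≤ A → V t = t := by
    intro t ht
    rw [hV, min_eq_left]
    refine le_trans ?_ (le_max_right _ _)
    linarith
  refine ⟨U * V, ?_, ?_, ?_⟩
  · rw [RelIso.mul_apply]
    have h1 : V x ≤ x := by rw [hV]; exact min_le_left _ _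
    rw [hUx _ h1, hV]
    refine (min_le_right _ _).trans (max_le ?_ ?_)
    · linarith
    · simp only [A]; linarith
  · rw [RelIso.mul_apply, hVy y le_rfl, hU]
    refine le_trans ?_ (le_max_right _ _)
    refine le_min ?_ ?_
    · linarith
    · simp only [B]; linarith
  · intro e
    cases e
    · have h1 : ∀ᶠ t in (atBot : Filter ℚ), t ≤ min A x := eventually_le_atBot _
      filter_upwards [h1] with t ht
      rw [RelIso.mul_apply, hVA t (ht.trans (min_le_left _ _)), hUx t (ht.trans (min_le_right _ _))]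
    · have h1 : ∀ᶠ t in (atTop : Filter ℚ), max B y ≤ t := eventually_ge_atTop _
      filter_upwards [h1] with t ht
      rw [RelIso.mul_apply, hVy t ((le_max_right _ _).trans ht), hUB t ((le_max_left _ _).trans ht)]

/-- an automorphism with germ `x + 1` at the end `s` and trivial germ at the other end -/
theorem exists_shift (s : Bool) : ∃ e : ℚ ≃o ℚ, Germ s e 1 ∧ ∀ᶠ x in atEnd (!s), e x = x := by
  have hh : (0 : ℚ) < 1 / 2 := by norm_num
  cases s
  · refine ⟨supIso 1 (infIso (aff 1 1 one_pos) (aff (1 / 2) 0 hh)), ?_, ?_⟩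
    · have h1 : ∀ᶠ t in (atBot : Filter ℚ), t ≤ -2 := eventually_le_atBot _
      unfold Germ
      filter_upwards [h1] with t ht
      show max t (min (1 * t + 1) (1 / 2 * t + 0)) = t + 1
      rw [min_eq_left (by linarith), max_eq_right (by linarith)]
      ring
    · have h1 : ∀ᶠ t in (atTop : Filter ℚ), 0 ≤ t := eventually_ge_atTop _
      filter_upwards [h1] with t ht
      show max t (min (1 * t + 1) (1 / 2 * t + 0)) = t
      rw [max_eq_left]
      refine (min_le_right _ _).trans (by linarith)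
  · refine ⟨supIso 1 (infIso (aff 1 1 one_pos) (aff 2 0 two_pos)), ?_, ?_⟩
    · have h1 : ∀ᶠ t in (atTop : Filter ℚ), 1 ≤ t := eventually_ge_atTop _
      unfold Germ
      filter_upwards [h1] with t ht
      show max t (min (1 * t + 1) (2 * t + 0)) = t + 1
      rw [min_eq_left (by linarith), max_eq_right (by linarith)]
      ring
    · have h1 : ∀ᶠ t in (atBot : Filter ℚ), t ≤ 0 := eventually_le_atBot _
      filter_upwards [h1] with t ht
      show max t (min (1 * t + 1) (2 * t + 0)) = t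
      rw [max_eq_left]
      refine (min_le_right _ _).trans (by linarith)

/-- sanity check: the meet of two ℓ-ideals is their intersection -/
theorem LIdeal.mem_inf {G : Type u} [Group G] [Lattice G] (N K : LIdeal G) (g : G) :
    g ∈ (N ⊓ K).1 ↔ g ∈ N.1 ∧ g ∈ K.1 := by
  constructor
  · intro h
    exact ⟨(inf_le_left : N ⊓ K ≤ N) h, (inf_le_right : N ⊓ K ≤ K) h⟩
  · rintro ⟨h1, h2⟩
    let P : LIdeal G := ⟨N.1 ⊓ K.1, {
        normal := by
          have := N.2.normal
          have := K.2.normal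
          infer_instance
        sup_mem := fun a ha b hb => ⟨N.2.sup_mem a ha.1 b hb.1, K.2.sup_mem a ha.2 b hb.2⟩
        inf_mem := fun a ha b hb => ⟨N.2.inf_mem a ha.1 b hb.1, K.2.inf_mem a ha.2 b hb.2⟩
        convex := fun a ha b hb c h1 h2 => ⟨N.2.convex a ha.1 b hb.1 c h1 h2,
          K.2.convex a ha.2 b hb.2 c h1 h2⟩ }⟩
    have hN : P ≤ N := fun g (hg : g ∈ N.1 ⊓ K.1) => hg.1
    have hK : P ≤ K := fun g (hg : g ∈ N.1 ⊓ K.1) => hg.2
    have h3 : P ≤ N ⊓ K := le_inf hN hK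
    have h4 : g ∈ P.1 := ⟨h1, h2⟩
    exact h3 h4

/-- sanity check: the join of two ℓ-ideals is the least ℓ-ideal containing both -/
theorem LIdeal.sup_isLUB {G : Type u} [Group G] [Lattice G] (N K : LIdeal G) :
    IsLUB {N, K} (N ⊔ K) := isLUB_pair

theorem LIdeal.exists_of_not_le {G : Type u} [Group G] [Lattice G] {N K : LIdeal G}
    (h : ¬ N ≤ K) : ∃ g ∈ N.1, g ∉ K.1 := by
  by_contra hcon
  push Not at hcon
  exact h hcon

theorem abs_mem {G : Type u} [Group G] [Lattice G] [MulLeftMono G] [MulRightMono G]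
    {N : Subgroup G} (h : IsLIdeal N) {j : G} (hj : j ⊔ j⁻¹ ∈ N) : j ∈ N := by
  refine h.convex _ (N.inv_mem hj) _ hj j ?_ le_sup_left
  rw [inv_le']
  exact le_sup_right

theorem mem_abs {G : Type u} [Group G] [Lattice G]
    {N : Subgroup G} (h : IsLIdeal N) {j : G} (hj : j ∈ N) : j ⊔ j⁻¹ ∈ N :=
  h.sup_mem _ hj _ (N.inv_mem hj)

/-! ### The ℓ-group -/

/-- coordinates of a grid point -/
def crd {I : Type u} (s : Bool) (v : I × I) : I := cond s v.1 v.2

/-- families of order automorphisms of `ℚ` indexed by the grid `I × I`, whose germ at `+∞` is a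
translation depending only on the first coordinate, and whose germ at `-∞` is a translation
depending only on the second coordinate -/
structure G0 (I : Type u) where
  f : I × I → (ℚ ≃o ℚ)
  germ : ∃ lam : Bool → I → ℚ, ∀ v s, Germ s (f v) (lam s (crd s v))

variable {I : Type u}

theorem G0.ext' {g h : G0 I} (e : ∀ v x, g.f v x = h.f v x) : g = h := by
  rcases g with ⟨g, hg⟩
  rcases h with ⟨h, hh⟩
  have : g = h := funext fun v => RelIso.ext fun x => e v x
  subst this
  rfl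

instance : Mul (G0 I) := ⟨fun g h => ⟨fun v => g.f v * h.f v, by
  obtain ⟨a, ha⟩ := g.germ
  obtain ⟨b, hb⟩ := h.germ
  exact ⟨fun s i => a s i + b s i, fun v s => (ha v s).mul (hb v s)⟩⟩⟩

instance : One (G0 I) := ⟨⟨fun _ => 1, ⟨fun _ _ => 0, fun _ s => Germ.one s⟩⟩⟩

instance : Inv (G0 I) := ⟨fun g => ⟨fun v => (g.f v)⁻¹, by
  obtain ⟨a, ha⟩ := g.germ
  exact ⟨fun s i => - a s i, fun v s => (ha v s).inv⟩⟩⟩

@[simp] theorem mul_f (g h : G0 I) (v : I × I) : (g * h).f v = g.f v * h.f v := rfl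
@[simp] theorem one_f (v : I × I) : (1 : G0 I).f v = 1 := rfl
@[simp] theorem inv_f (g : G0 I) (v : I × I) : (g⁻¹).f v = (g.f v)⁻¹ := rfl

instance : Group (G0 I) := Group.ofLeftAxioms
  (fun a b c => G0.ext' fun v x => rfl)
  (fun a => G0.ext' fun v x => rfl)
  (fun a => G0.ext' fun v x => by simp)

instance : PartialOrder (G0 I) where
  le g h := ∀ v x, g.f v x ≤ h.f v x
  le_refl g v x := le_rfl
  le_trans a b c h1 h2 v x := (h1 v x).trans (h2 v x)
  le_antisymm a b h1 h2 := G0.ext' fun v x => le_antisymm (h1 v x) (h2 v x)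

theorem le_def (g h : G0 I) : g ≤ h ↔ ∀ v x, g.f v x ≤ h.f v x := Iff.rfl

noncomputable instance : Lattice (G0 I) where
  sup g h := ⟨fun v => supIso (g.f v) (h.f v), by
    obtain ⟨a, ha⟩ := g.germ
    obtain ⟨b, hb⟩ := h.germ
    exact ⟨fun s i => max (a s i) (b s i), fun v s => (ha v s).sup (hb v s)⟩⟩
  inf g h := ⟨fun v => infIso (g.f v) (h.f v), by
    obtain ⟨a, ha⟩ := g.germ
    obtain ⟨b, hb⟩ := h.germ
    exact ⟨fun s i => min (a s i) (b s i), fun v s => (ha v s).inf (hb v s)⟩⟩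
  le_sup_left a b v x := le_max_left _ _
  le_sup_right a b v x := le_max_right _ _
  sup_le a b c h1 h2 v x := max_le (h1 v x) (h2 v x)
  inf_le_left a b v x := min_le_left _ _
  inf_le_right a b v x := min_le_right _ _
  le_inf a b c h1 h2 v x := le_min (h1 v x) (h2 v x)

@[simp] theorem sup_f (g h : G0 I) (v : I × I) (x : ℚ) :
    (g ⊔ h).f v x = max (g.f v x) (h.f v x) := rfl
@[simp] theorem inf_f (g h : G0 I) (v : I × I) (x : ℚ) :
    (g ⊓ h).f v x = min (g.f v x) (h.f v x) := rfl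

instance : MulLeftMono (G0 I) := ⟨fun a b c h v x => (a.f v).monotone (h v x)⟩
instance : MulRightMono (G0 I) := ⟨fun a b c h v x => h v (a.f v x)⟩

/-! ### Some ℓ-ideals -/

/-- the elements which are eventually the identity along prescribed filters -/
def K (Φ : I × I → Option Bool → Prop) : Subgroup (G0 I) where
  carrier := {g | ∀ v o, Φ v o → ∀ᶠ x in fil o, g.f v x = x}
  mul_mem' := by
    intro a b ha hb v o h
    filter_upwards [ha v o h, hb v o h] with x h1 h2
    rw [mul_f, RelIso.mul_apply, h2, h1]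
  one_mem' := fun v o _ => Eventually.of_forall fun x => rfl
  inv_mem' := by
    intro a ha v o h
    filter_upwards [ha v o h] with x h1
    have h2 : (a.f v)⁻¹ (a.f v x) = x := RelIso.inv_apply_self _ _
    rw [h1] at h2
    exact h2

theorem mem_K (Φ : I × I → Option Bool → Prop) (g : G0 I) :
    g ∈ K Φ ↔ ∀ v o, Φ v o → ∀ᶠ x in fil o, g.f v x = x := Iff.rfl

theorem isLIdeal_K (Φ : I × I → Option Bool → Prop) : IsLIdeal (K Φ) where
  normal := by
    refine ⟨fun n hn g v o h => ?_⟩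
    have h1 := (tendsto_iso o (g.f v)⁻¹).eventually (hn v o h)
    filter_upwards [h1] with x h2
    rw [mul_f, mul_f, RelIso.mul_apply, RelIso.mul_apply, inv_f, h2]
    exact RelIso.apply_inv_self _ _
  sup_mem := by
    intro a ha b hb v o h
    filter_upwards [ha v o h, hb v o h] with x h1 h2
    rw [sup_f, h1, h2, max_self]
  inf_mem := by
    intro a ha b hb v o h
    filter_upwards [ha v o h, hb v o h] with x h1 h2
    rw [inf_f, h1, h2, min_self]
  convex := by
    intro a ha b hb c hac hcb v o h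
    filter_upwards [ha v o h, hb v o h] with x h1 h2
    have h3 := hac v x
    have h4 := hcb v x
    rw [h1] at h3
    rw [h2] at h4
    exact le_antisymm h4 h3

/-! ### Two generation lemmas -/

theorem one_le_abs (g : G0 I) (v : I × I) (x : ℚ) : x ≤ (g ⊔ g⁻¹).f v x := by
  rw [sup_f]
  rcases le_total x (g.f v x) with h | h
  · exact h.trans (le_max_left _ _)
  · refine le_trans ?_ (le_max_right _ _)
    have h1 := (g⁻¹.f v).monotone h
    have h2 : (g⁻¹.f v) (g.f v x) = x := RelIso.inv_apply_self _ _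
    rwa [h2] at h1

theorem exists_lt_abs (g : G0 I) (v : I × I) (h : g.f v ≠ 1) : ∃ x, x < (g ⊔ g⁻¹).f v x := by
  by_contra hcon
  push Not at hcon
  apply h
  refine RelIso.ext fun x => ?_
  show g.f v x = x
  have h1 : ∀ x, g.f v x ≤ x := fun x => (le_max_left _ _).trans (hcon x)
  have h2 : ∀ x, g⁻¹.f v x ≤ x := fun x => (le_max_right _ _).trans (hcon x)
  refine le_antisymm (h1 x) ?_
  have h3 := h2 (g.f v x)
  have h4 : (g⁻¹.f v) (g.f v x) = x := RelIso.inv_apply_self _ _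
  rwa [h4] at h3

theorem lemmaA {N : Subgroup (G0 I)} (hN : IsLIdeal N) {g : G0 I} (hg : g ∈ N) (W : Set (I × I))
    (hW : ∀ w ∈ W, g.f w ≠ 1) (f : G0 I) (hf1 : ∀ w, w ∉ W → f.f w = 1)
    (hf2 : ∀ w ∈ W, ∀ s, ∀ᶠ x in atEnd s, f.f w x = x) : f ∈ N := by
  have hg' := mem_abs hN hg
  have hg1 : ∀ v x, x ≤ (g ⊔ g⁻¹).f v x := one_le_abs g
  have hg2 : ∀ w ∈ W, ∃ x, x < (g ⊔ g⁻¹).f w x := fun w hw => exists_lt_abs g w (hW w hw)
  generalize (g ⊔ g⁻¹) = p at hg' hg1 hg2
  apply abs_mem hN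
  have hf3 : ∀ w, w ∉ W → ∀ x, (f ⊔ f⁻¹).f w x = x := by
    intro w hw x
    rw [sup_f, inv_f, hf1 w hw]
    simp
  have hf4 : ∀ w ∈ W, ∃ a b, a < b ∧ ∀ x, (x ≤ a ∨ b ≤ x) → (f ⊔ f⁻¹).f w x = x := by
    intro w hw
    have h1 : ∀ s, ∀ᶠ x in atEnd s, (f ⊔ f⁻¹).f w x = x := by
      intro s
      have hm : f ∈ K (fun v o => v = w ∧ o = some s) := by
        rintro v o ⟨rfl, rfl⟩
        exact hf2 v hw s
      exact mem_abs (isLIdeal_K _) hm w (some s) ⟨rfl, rfl⟩
    obtain ⟨a, ha⟩ := eventually_atBot.1 (h1 false)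
    obtain ⟨b, hb⟩ := eventually_atTop.1 (h1 true)
    refine ⟨a, max b (a + 1), lt_of_lt_of_le (lt_add_one a) (le_max_right _ _), ?_⟩
    rintro x (hx | hx)
    · exact ha x hx
    · exact hb x ((le_max_left _ _).trans hx)
  have hf5 := one_le_abs f
  generalize (f ⊔ f⁻¹) = q at hf3 hf4 hf5
  choose! a b hab hf6 using hf4
  choose! z hz using hg2
  have hst : ∀ w, ∃ h : ℚ ≃o ℚ, w ∈ W → (h (z w) ≤ a w ∧ b w ≤ h (p.f w (z w)) ∧
      ∀ s, ∀ᶠ t in atEnd s, h t = t) := by
    intro w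
    by_cases hw : w ∈ W
    · obtain ⟨h, hh⟩ := exists_stretch (z w) (p.f w (z w)) (a w) (b w) (hz w hw)
      exact ⟨h, fun _ => hh⟩
    · exact ⟨1, fun h => absurd h hw⟩
  choose h hh using hst
  classical
  let H : G0 I := ⟨fun w => if w ∈ W then h w else 1, ⟨fun _ _ => 0, fun w s => by
    by_cases hw : w ∈ W
    · simp only [if_pos hw]
      unfold Germ
      filter_upwards [(hh w hw).2.2 s] with t ht
      rw [ht, add_zero]
    · simp only [if_neg hw]
      exact Germ.one s⟩⟩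
  have hc : H * p * H⁻¹ ∈ N := hN.normal.conj_mem p hg' H
  refine hN.convex 1 N.one_mem _ hc q (fun v x => hf5 v x) (fun w t => ?_)
  by_cases hw : w ∈ W
  · have hH : H.f w = h w := if_pos hw
    have e1 : (H * p * H⁻¹).f w t = h w (p.f w ((h w)⁻¹ t)) := by
      rw [mul_f, mul_f, inv_f, hH]
      rfl
    rw [e1]
    obtain ⟨h1, h2, -⟩ := hh w hw
    by_cases ht : t ≤ a w ∨ b w ≤ t
    · rw [hf6 w hw t ht]
      have h3 := (h w).monotone (hg1 w ((h w)⁻¹ t))
      have h4 : h w ((h w)⁻¹ t) = t := RelIso.apply_inv_self _ _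
      rwa [h4] at h3
    · push Not at ht
      have h3 : q.f w t ≤ b w := by
        have h4 := (q.f w).monotone ht.2.le
        rwa [hf6 w hw (b w) (Or.inr le_rfl)] at h4
      refine h3.trans (h2.trans ?_)
      apply (h w).monotone
      apply (p.f w).monotone
      have h5 := ((h w)⁻¹).monotone (h1.trans ht.1.le)
      have h6 : (h w)⁻¹ (h w (z w)) = z w := RelIso.inv_apply_self _ _
      rwa [h6] at h5
  · rw [hf3 w hw t]
    have hH : H.f w = 1 := if_neg hw
    have e1 : (H * p * H⁻¹).f w t = p.f w t := by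
      rw [mul_f, mul_f, inv_f, hH]
      rfl
    rw [e1]
    exact hg1 w t

theorem pow_f (g : G0 I) (n : ℕ) (v : I × I) : (g ^ n).f v = (g.f v) ^ n := by
  induction n with
  | zero => rfl
  | succ n ih => rw [pow_succ, mul_f, ih, pow_succ]

theorem germ_pow {s : Bool} {f : ℚ ≃o ℚ} {c : ℚ} (hf : Germ s f c) (n : ℕ) :
    Germ s (f ^ n) (n * c) := by
  induction n with
  | zero => simpa using Germ.one s
  | succ n ih =>
    rw [pow_succ]
    have := ih.mul hf
    convert this using 1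
    push_cast
    ring

theorem lemmaB {N : Subgroup (G0 I)} (hN : IsLIdeal N) {g : G0 I} (hg : g ∈ N) (s : Bool) (i : I)
    (c : ℚ) (hc : c ≠ 0) (hgc : ∀ v, crd s v = i → Germ s (g.f v) c) (j : G0 I)
    (hj1 : ∀ v, crd s v ≠ i → j.f v = 1)
    (hj2 : ∀ v, crd s v = i → ∀ᶠ x in atEnd (!s), j.f v x = x) : j ∈ N := by
  have hg' := mem_abs hN hg
  have hg1 : ∀ v x, x ≤ (g ⊔ g⁻¹).f v x := one_le_abs g
  have hg2 : ∀ v, crd s v = i → Germ s ((g ⊔ g⁻¹).f v) |c| := by
    intro v hv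
    have := (hgc v hv).sup (hgc v hv).inv
    rw [abs_eq_max_neg]
    exact this
  have hc' : 0 < |c| := abs_pos.2 hc
  generalize (g ⊔ g⁻¹) = p at hg' hg1 hg2
  generalize |c| = d at hg2 hc'
  obtain ⟨lam, hlam⟩ := j.germ
  apply abs_mem hN
  have hk1 : ∀ v, crd s v ≠ i → ∀ x, (j ⊔ j⁻¹).f v x = x := by
    intro v hv x
    rw [sup_f, inv_f, hj1 v hv]
    simp
  have hk2 : ∀ v, crd s v = i → ∀ᶠ x in atEnd (!s), (j ⊔ j⁻¹).f v x = x := by
    intro v hv
    have hm : j ∈ K (fun w o => w = v ∧ o = some (!s)) := by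
      rintro w o ⟨rfl, rfl⟩
      exact hj2 w hv
    exact mem_abs (isLIdeal_K _) hm v (some (!s)) ⟨rfl, rfl⟩
  have hk3 : ∀ v, crd s v = i → Germ s ((j ⊔ j⁻¹).f v) |lam s i| := by
    intro v hv
    have h1 := hlam v s
    rw [hv] at h1
    have := h1.sup h1.inv
    rw [abs_eq_max_neg]
    exact this
  have hk4 := one_le_abs j
  generalize (j ⊔ j⁻¹) = k at hk1 hk2 hk3 hk4
  generalize |lam s i| = e at hk3
  obtain ⟨n, hn⟩ := Archimedean.arch e hc'
  rw [nsmul_eq_mul] at hn
  have hpn : p ^ n ∈ N := N.pow_mem hg' n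
  have hpn1 : ∀ v x, x ≤ (p ^ n).f v x := by
    intro v x
    rw [pow_f]
    clear hpn hn
    induction n with
    | zero => simp
    | succ n ih =>
      rw [pow_succ']
      exact ih.trans (hg1 v _)
  have hpn2 : ∀ v, crd s v = i → Germ s ((p ^ n).f v) (n * d) := by
    intro v hv
    rw [pow_f]
    exact germ_pow (hg2 v hv) n
  generalize p ^ n = P at hpn hpn1 hpn2
  have hle : ∀ v, crd s v = i → ∀ r, ∀ᶠ x in atEnd r, k.f v x ≤ P.f v x := by
    intro v hv r
    by_cases hr : r = s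
    · subst hr
      have h1 := hk3 v hv
      have h2 := hpn2 v hv
      unfold Germ at h1 h2
      filter_upwards [h1, h2] with x h3 h4
      rw [h3, h4]
      linarith
    · have hr' : r = !s := by
        cases r <;> cases s <;> simp_all
      subst hr'
      filter_upwards [hk2 v hv] with x hx
      rw [hx]
      exact hpn1 v x
  have hF : (k ⊔ P) * P⁻¹ ∈ N := by
    refine lemmaA hN hg {v | crd s v = i} ?_ _ ?_ ?_
    · intro w hw hg0
      have h1 := hgc w hw
      rw [hg0] at h1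
      exact hc (h1.unique (Germ.one s))
    · intro w hw
      have hw' : crd s w ≠ i := hw
      refine RelIso.ext fun x => ?_
      show (k ⊔ P).f w ((P.f w)⁻¹ x) = x
      rw [sup_f, hk1 w hw']
      have h1 : P.f w ((P.f w)⁻¹ x) = x := RelIso.apply_inv_self _ _
      rw [h1]
      have h2 := hpn1 w ((P.f w)⁻¹ x)
      rw [h1] at h2
      exact max_eq_right h2
    · intro w hw r
      have h1 := (tendsto_iso (some r) (P.f w)⁻¹).eventually (hle w hw r)
      filter_upwards [h1] with x h2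
      show max (k.f w ((P.f w)⁻¹ x)) (P.f w ((P.f w)⁻¹ x)) = x
      have h3 : P.f w ((P.f w)⁻¹ x) = x := RelIso.apply_inv_self _ _
      rw [max_eq_right h2, h3]
  have hkP : k ⊔ P ∈ N := by
    have := N.mul_mem hF hpn
    rwa [inv_mul_cancel_right] at this
  exact hN.convex 1 N.one_mem _ hkP k (fun v x => hk4 v x) le_sup_left


/-! ### Completely join prime ℓ-ideals: points and lines -/

/-- conditions defining the ℓ-ideal of a grid point -/
def ΦM (v : I × I) : I × I → Option Bool → Prop :=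
  fun w o => (w ≠ v ∧ o = none) ∨ (w = v ∧ o ≠ none)

/-- conditions defining the ℓ-ideal of a line (column or row) -/
def ΦJ (s : Bool) (i : I) : I × I → Option Bool → Prop :=
  fun w o => (crd s w ≠ i ∧ o = none) ∨ (crd s w = i ∧ o = some (!s))

/-- the ℓ-ideal of a grid point -/
def Mi (v : I × I) : LIdeal (G0 I) := ⟨K (ΦM v), isLIdeal_K _⟩

/-- the ℓ-ideal of a line -/
def Ji (s : Bool) (i : I) : LIdeal (G0 I) := ⟨K (ΦJ s i), isLIdeal_K _⟩

theorem eq_one_iff (f : ℚ ≃o ℚ) : f = 1 ↔ ∀ᶠ x in fil none, f x = x := by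
  show _ ↔ ∀ᶠ x in ⊤, f x = x
  rw [eventually_top]
  constructor
  · rintro rfl x; rfl
  · intro h; exact RelIso.ext h

theorem mem_Mi (v : I × I) (g : G0 I) : g ∈ (Mi v).1 ↔
    (∀ w, w ≠ v → g.f w = 1) ∧ ∀ s, ∀ᶠ x in atEnd s, g.f v x = x := by
  constructor
  · intro h
    exact ⟨fun w hw => (eq_one_iff _).2 (h w none (Or.inl ⟨hw, rfl⟩)),
      fun s => h v (some s) (Or.inr ⟨rfl, by simp⟩)⟩
  · rintro ⟨h1, h2⟩ w o (⟨hw, rfl⟩ | ⟨rfl, ho⟩)
    · exact (eq_one_iff _).1 (h1 w hw)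
    · obtain ⟨s, rfl⟩ := Option.ne_none_iff_exists'.1 ho
      exact h2 s

theorem mem_Ji (s : Bool) (i : I) (g : G0 I) : g ∈ (Ji s i).1 ↔
    (∀ w, crd s w ≠ i → g.f w = 1) ∧ ∀ w, crd s w = i → ∀ᶠ x in atEnd (!s), g.f w x = x := by
  constructor
  · intro h
    exact ⟨fun w hw => (eq_one_iff _).2 (h w none (Or.inl ⟨hw, rfl⟩)),
      fun w hw => h w (some (!s)) (Or.inr ⟨hw, rfl⟩)⟩
  · rintro ⟨h1, h2⟩ w o (⟨hw, rfl⟩ | ⟨hw, rfl⟩)
    · exact (eq_one_iff _).1 (h1 w hw)
    · exact h2 w hw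

theorem exists_mem_Mi (v : I × I) : ∃ g ∈ (Mi v).1, g.f v ≠ 1 := by
  classical
  obtain ⟨h, -, h2, h3⟩ := exists_stretch 0 1 0 2 one_pos
  refine ⟨⟨fun w => if w = v then h else 1, ⟨fun _ _ => 0, fun w s => ?_⟩⟩, ?_, ?_⟩
  · by_cases hw : w = v
    · simp only [if_pos hw]
      unfold Germ
      filter_upwards [h3 s] with x hx
      rw [hx, add_zero]
    · simp only [if_neg hw]
      exact Germ.one s
  · rw [mem_Mi]
    refine ⟨fun w hw => if_neg hw, fun s => ?_⟩
    simp only [if_true]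
    exact h3 s
  · simp only [if_true]
    rintro rfl
    simp at h2

theorem exists_mem_Ji (s : Bool) (i : I) : ∃ g ∈ (Ji s i).1, ∀ w, crd s w = i →
    Germ s (g.f w) 1 := by
  classical
  obtain ⟨e, h1, h2⟩ := exists_shift s
  refine ⟨⟨fun w => if crd s w = i then e else 1,
    ⟨fun r j => if r = s ∧ j = i then 1 else 0, fun w r => ?_⟩⟩, ?_, ?_⟩
  · by_cases hw : crd s w = i
    · simp only [if_pos hw]
      by_cases hr : r = s
      · subst hr
        rw [if_pos ⟨rfl, hw⟩]
        exact h1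
      · rw [if_neg (fun h => hr h.1)]
        have hr' : r = !s := by
          cases r <;> cases s <;> simp_all
        subst hr'
        unfold Germ
        filter_upwards [h2] with x hx
        rw [hx, add_zero]
    · simp only [if_neg hw]
      rw [if_neg]
      · exact Germ.one r
      · rintro ⟨rfl, h⟩
        exact hw h
  · rw [mem_Ji]
    refine ⟨fun w hw => if_neg hw, fun w hw => ?_⟩
    simp only [if_pos hw]
    exact h2
  · intro w hw
    simp only [if_pos hw]
    exact h1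

theorem sj_Mi (v : I × I) : Sj (Mi v) := by
  refine ⟨⟨K (fun w o => w = v ∧ o = none), isLIdeal_K _⟩, fun N => ?_⟩
  constructor
  · intro h1 h2
    obtain ⟨g, hg, hgv⟩ := exists_mem_Mi v
    exact hgv ((eq_one_iff _).2 (h2 (h1 hg) v none ⟨rfl, rfl⟩))
  · intro h
    obtain ⟨g, hg, hgv⟩ := LIdeal.exists_of_not_le h
    have hgv' : g.f v ≠ 1 := by
      intro h1
      apply hgv
      rintro w o ⟨rfl, rfl⟩
      exact (eq_one_iff _).1 h1
    intro f hf
    rw [mem_Mi] at hf
    refine lemmaA N.2 hg {v} ?_ f ?_ ?_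
    · rintro w rfl
      exact hgv'
    · intro w hw
      exact hf.1 w hw
    · rintro w rfl s
      exact hf.2 s

theorem sj_Ji [Nonempty I] (s : Bool) (i : I) : Sj (Ji s i) := by
  refine ⟨⟨K (fun w o => crd s w = i ∧ o = some s), isLIdeal_K _⟩, fun N => ?_⟩
  constructor
  · intro h1 h2
    obtain ⟨g, hg, hgv⟩ := exists_mem_Ji s i
    have h3 := h2 (h1 hg) (i, i) (some s) ⟨by cases s <;> rfl, rfl⟩
    have h4 := hgv (i, i) (by cases s <;> rfl)
    have h5 : Germ s (g.f (i, i)) 0 := by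
      unfold Germ
      filter_upwards [h3] with x hx
      rw [hx, add_zero]
    exact one_ne_zero (h4.unique h5)
  · intro h
    obtain ⟨g, hg, hgv⟩ := LIdeal.exists_of_not_le h
    obtain ⟨lam, hlam⟩ := g.germ
    have hc : lam s i ≠ 0 := by
      intro h0
      apply hgv
      rintro w o ⟨hw, rfl⟩
      have h1 := hlam w s
      rw [hw, h0] at h1
      unfold Germ at h1
      show ∀ᶠ x in atEnd s, _
      filter_upwards [h1] with x hx
      rw [hx, add_zero]
    intro f hf
    rw [mem_Ji] at hf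
    refine lemmaB N.2 hg s i (lam s i) hc ?_ f hf.1 hf.2
    intro v hv
    have h1 := hlam v s
    rwa [hv] at h1

theorem Mi_le_Ji (s : Bool) (v : I × I) : Mi v ≤ Ji s (crd s v) := by
  intro f hf
  rw [mem_Mi] at hf
  rw [mem_Ji]
  refine ⟨fun w hw => hf.1 w ?_, fun w hw => ?_⟩
  · rintro rfl
    exact hw rfl
  · by_cases h : w = v
    · subst h
      exact hf.2 _
    · rw [hf.1 w h]
      exact Eventually.of_forall fun x => rfl

/-- a completely join prime ℓ-ideal contains a nontrivial element -/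
theorem Sj.exists_ne {q : LIdeal (G0 I)} (h : Sj q) : ∃ g ∈ q.1, ∃ v, g.f v ≠ 1 := by
  obtain ⟨m, hm⟩ := h
  obtain ⟨g, hg, hgm⟩ := LIdeal.exists_of_not_le ((hm q).1 le_rfl)
  refine ⟨g, hg, ?_⟩
  by_contra hcon
  push Not at hcon
  apply hgm
  have : g = 1 := G0.ext' fun v x => by rw [hcon v]; rfl
  rw [this]
  exact m.1.one_mem

theorem Sj.coord {q : LIdeal (G0 I)} (h : Sj q) {s : Bool} {i : I} (hq : q ≤ Ji s i) :
    ∀ g ∈ q.1, ∀ v, g.f v ≠ 1 → crd s v = i := by
  intro g hg v hv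
  by_contra hcon
  exact hv (((mem_Ji s i g).1 (hq hg)).1 v hcon)

theorem Ji_inj [Nonempty I] {s : Bool} {i j : I} {q : LIdeal (G0 I)} (h : Sj q) (h1 : q ≤ Ji s i)
    (h2 : q ≤ Ji s j) : i = j := by
  obtain ⟨g, hg, v, hv⟩ := h.exists_ne
  rw [← h.coord h1 g hg v hv, h.coord h2 g hg v hv]

theorem num_iff [Nonempty I] (s : Bool) (x : LIdeal (G0 I)) :
    Num (sSup (Set.range (Ji (I := I) s))) x ↔ ∃ i, x = Ji s i := by
  constructor
  · rintro ⟨h1, h2, h3⟩
    obtain ⟨_, ⟨i, rfl⟩, hi⟩ := h1.le_sSup h2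
    exact ⟨i, (h3 _ (sj_Ji s i) hi (le_sSup ⟨i, rfl⟩)).symm⟩
  · rintro ⟨i, rfl⟩
    refine ⟨sj_Ji s i, le_sSup ⟨i, rfl⟩, ?_⟩
    intro y hy h1 h2
    obtain ⟨_, ⟨j, rfl⟩, hj⟩ := hy.le_sSup h2
    have : i = j := Ji_inj (sj_Ji s i) le_rfl (h1.trans hj)
    subst this
    exact le_antisymm hj h1

theorem rl_iff [Nonempty I] (R : Set (I × I)) (a b : I) :
    Rl (sSup (Mi '' R)) (Ji true a) (Ji false b) ↔ (a, b) ∈ R := by
  constructor
  · rintro ⟨q, hq, h1, h2, h3⟩
    obtain ⟨_, ⟨v, hv, rfl⟩, hqv⟩ := hq.le_sSup h3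
    obtain ⟨g, hg, w, hw⟩ := hq.exists_ne
    have e1 : w = v := by
      by_contra hcon
      exact hw (((mem_Mi v g).1 (hqv hg)).1 w hcon)
    have e2 := hq.coord h1 g hg w hw
    have e3 := hq.coord h2 g hg w hw
    have e4 : v = (a, b) := by
      rw [← e1]
      exact Prod.ext e2 e3
    rwa [e4] at hv
  · intro h
    exact ⟨Mi (a, b), sj_Mi _, Mi_le_Ji true (a, b), Mi_le_Ji false (a, b),
      le_sSup ⟨_, h, rfl⟩⟩

/-- the index set -/
abbrev Ix : Type u := ULift.{u} ℕ

/-- the parameters -/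
noncomputable def pr : Fin 5 → LIdeal (G0 Ix.{u})
  | 0 => sSup (Set.range (Ji true))
  | 1 => sSup (Set.range (Ji false))
  | 2 => sSup (Mi '' {v | v.1 = v.2})
  | 3 => sSup (Mi '' {v | v.2.down = v.1.down + 1})
  | 4 => Ji true ⟨0⟩

theorem num0 (x : LIdeal (G0 Ix.{u})) : Num (pr 0) x ↔ ∃ i, x = Ji true i := num_iff true x
theorem num1 (x : LIdeal (G0 Ix.{u})) : Num (pr 1) x ↔ ∃ i, x = Ji false i := num_iff false x
theorem rl2 (a b : Ix.{u}) : Rl (pr 2) (Ji true a) (Ji false b) ↔ a = b := rl_iff _ a b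
theorem rl3 (a b : Ix.{u}) : Rl (pr 3) (Ji true a) (Ji false b) ↔ b.down = a.down + 1 :=
  rl_iff _ a b

theorem sc_iff (a b : Ix.{u}) : Sc pr (Ji true a) (Ji true b) ↔ b.down = a.down + 1 := by
  constructor
  · rintro ⟨-, -, r, hr, h1, h2⟩
    obtain ⟨c, rfl⟩ := (num1 _).1 hr
    rw [rl3] at h1
    rw [rl2] at h2
    subst h2
    exact h1
  · intro h
    exact ⟨(num0 _).2 ⟨a, rfl⟩, (num0 _).2 ⟨b, rfl⟩, Ji false b, (num1 _).2 ⟨b, rfl⟩,
      (rl3 _ _).2 h, (rl2 _ _).2 rfl⟩

theorem sc_exists {x y : LIdeal (G0 Ix.{u})} (h : Sc pr x y) :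
    ∃ a b : Ix.{u}, x = Ji true a ∧ y = Ji true b ∧ b.down = a.down + 1 := by
  obtain ⟨a, rfl⟩ := (num0 _).1 h.1
  obtain ⟨b, rfl⟩ := (num0 _).1 h.2.1
  exact ⟨a, b, rfl, rfl, (sc_iff a b).1 h⟩

theorem Ji_injective {s : Bool} {a b : Ix.{u}} (h : Ji s a = Ji s b) : a = b :=
  Ji_inj (sj_Ji s a) le_rfl h.le

theorem chi_pr : Chi (pr.{u}) := by
  refine ⟨?_, ?_, ?_, ?_, ?_, ?_, ?_, ?_, ?_, ?_, ?_⟩
  · intro c r hc hr
    obtain ⟨a, rfl⟩ := (num0 _).1 hc
    obtain ⟨b, rfl⟩ := (num1 _).1 hr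
    exact ⟨Mi (a, b), sj_Mi _, Mi_le_Ji true (a, b), Mi_le_Ji false (a, b)⟩
  · intro c c' q hc hc' hq h1 h2
    obtain ⟨a, rfl⟩ := (num0 _).1 hc
    obtain ⟨b, rfl⟩ := (num0 _).1 hc'
    rw [Ji_inj hq h1 h2]
  · intro c c' q hc hc' hq h1 h2
    obtain ⟨a, rfl⟩ := (num1 _).1 hc
    obtain ⟨b, rfl⟩ := (num1 _).1 hc'
    rw [Ji_inj hq h1 h2]
  · intro b hb
    obtain ⟨b, rfl⟩ := (num0 _).1 hb
    exact ⟨Ji false b, (num1 _).2 ⟨b, rfl⟩, (rl2 _ _).2 rfl⟩
  · intro b b' r hb hb' hr h1 h2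
    obtain ⟨b, rfl⟩ := (num0 _).1 hb
    obtain ⟨b', rfl⟩ := (num0 _).1 hb'
    obtain ⟨r, rfl⟩ := (num1 _).1 hr
    rw [rl2] at h1 h2
    rw [h1, h2]
  · exact (num0 _).2 ⟨⟨0⟩, rfl⟩
  · intro x hx
    obtain ⟨a, b, rfl, hb, hab⟩ := sc_exists hx
    have := Ji_injective hb
    rw [← this] at hab
    simp at hab
  · intro x hx
    obtain ⟨a, rfl⟩ := (num0 _).1 hx
    exact ⟨Ji true ⟨a.down + 1⟩, (sc_iff _ _).2 rfl⟩
  · intro x y y' h1 h2
    obtain ⟨a, b, rfl, rfl, hab⟩ := sc_exists h1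
    obtain ⟨a', b', ha', rfl, hab'⟩ := sc_exists h2
    have h3 := Ji_injective ha'
    subst h3
    have h4 : b = b' := ULift.ext _ _ (by omega)
    rw [h4]
  · intro x x' y h1 h2
    obtain ⟨a, b, rfl, rfl, hab⟩ := sc_exists h1
    obtain ⟨a', b', rfl, hb', hab'⟩ := sc_exists h2
    have h3 := Ji_injective hb'
    subst h3
    have h4 : a = a' := ULift.ext _ _ (by omega)
    rw [h4]
  · intro X h0 hs x hx
    obtain ⟨⟨n⟩, rfl⟩ := (num0 _).1 hx
    induction n with
    | zero => exact h0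
    | succ n ih =>
      exact hs (Ji true ⟨n⟩) _ ((sc_iff _ _).2 rfl) (ih ((num0 _).2 ⟨_, rfl⟩))

/-! ### The theorem -/

/-- For every universe `u`: the set of Gödel numbers of the first-order sentences in the language of
lattices that hold in the lattice of ℓ-ideals of every ℓ-group is not computable. -/
theorem result : ¬ ComputablePred (fun n : ℕ => ∃ σ : Lat.Sentence, code σ = n ∧
    ∀ (G : Type u) [Group G] [Lattice G] [MulLeftMono G] [MulRightMono G], LIdeal G ⊨ σ) := by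
  intro hc
  obtain ⟨σ, hσ, h1, h2⟩ := exists_reduction.{u}
  apply halt_not_computable
  obtain ⟨f, hf, hfe⟩ := ComputablePred.computable_iff.1 hc
  refine ComputablePred.computable_iff.2 ⟨fun n => !f (code (σ n)), ?_, ?_⟩
  · exact Primrec.not.to_comp.comp (hf.comp hσ.to_comp)
  · funext n
    have h3 := congrFun hfe (code (σ n))
    have h4 : (∃ τ : Lat.Sentence, code τ = code (σ n) ∧
        ∀ (G : Type u) [Group G] [Lattice G] [MulLeftMono G] [MulRightMono G], LIdeal G ⊨ τ) ↔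
        ¬ Halt n := by
      constructor
      · rintro ⟨τ, hτ, h⟩ hn
        rw [code_injective _ _ hτ] at h
        exact h2 n (LIdeal (G0 Ix.{u})) ⟨pr, chi_pr⟩ hn (h (G0 Ix.{u}))
      · intro hn
        exact ⟨σ n, rfl, fun G _ _ _ _ => h1 n (LIdeal G) hn⟩
    have h5 : (f (code (σ n)) = true) ↔ ¬ Halt n := by
      rw [← h4]
      exact (iff_of_eq h3).symm
    apply propext
    cases hb : f (code (σ n))
    · simp [hb] at h5 ⊢
      exact h5
    · simp [hb] at h5 ⊢
      exact h5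

end Pool.Agent.Results.MP_411a76_lc.LIdealTheory
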